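import Pool.Agent.MP_7b45f6_mp.H32.Spec

/-!
# Row DBL: cutting along a sparse plane and doubling both sides
-/

set_option autoImplicit false

namespace Pool.Agent.MP_7b45f6_mp.H32

open Classical Filter Topology

namespace DBL

/-- The part of a system selected by `f`. -/
def sd (f : List P → Bool) (x : Sy) : Sy := (cond (f x.1) x.1 [], x.2.filter f)

/-- Merging two lists along a list of choices. -/
def mg : List Bool → List (List P) → List (List P) → List (List P)
  | [], _, _ => []
  | b :: bs, A, B => if b then A.headD [] :: mg bs A.tail B else B.headD [] :: mg bs A B.tail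

theorem mg_filter (f : List P → Bool) (l : List (List P)) :
    mg (l.map f) (l.filter f) (l.filter fun s => !f s) = l := by
  induction l with
  | nil => rfl
  | cons a l ih => cases h : f a <;> simp [mg, h, ih]

/-- The decoder. -/
def dec (bs : List Bool) (y : Sy × Sy) : List P := y.1.1 ++ y.2.1 ++ (mg bs y.1.2 y.2.2).flatten

theorem dec_sd (f : List P → Bool) (x : Sy) :
    allp x = dec (x.2.map f) (sd f x, sd (fun s => !f s) x) := by
  simp only [dec, sd, mg_filter, allp]
  cases f x.1 <;> simp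

theorem sd_sub (f : List P → Bool) (x : Sy) : (allp (sd f x)).Sublist (allp x) := by
  refine List.Sublist.append ?_ (List.Sublist.flatten List.filter_sublist)
  simp only [sd]
  cases f x.1 <;> simp

theorem sd_perm (f : List P → Bool) (x : Sy) :
    (allp (sd f x) ++ allp (sd (fun s => !f s) x)).Perm (allp x) := by
  have h := (List.filter_append_perm f x.2).flatten
  rw [List.flatten_append] at h
  simp only [sd, allp]
  cases f x.1
  · simp only [cond_false, Bool.not_false, cond_true, List.nil_append]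
    exact (List.perm_append_comm_assoc _ _ _).trans (h.append_left _)
  · simp only [cond_false, Bool.not_true, cond_true, List.nil_append, List.append_assoc]
    exact h.append_left _

theorem sd_mem {f : List P → Bool} {x : Sy} {p : P} (h : p ∈ allp (sd f x)) :
    ∃ s ∈ x.1 :: x.2, f s = true ∧ p ∈ s := by
  simp only [allp, sd, List.mem_append, List.mem_flatten, List.mem_filter] at h
  rcases h with h | ⟨s, ⟨h1, h2⟩, h3⟩
  · cases h1 : f x.1
    · simp [h1] at h
    · exact ⟨x.1, by simp, h1, by simpa [h1] using h⟩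
  · exact ⟨s, by simp [h1], h2, h3⟩

theorem sum_filter (f : List P → Bool) (g : List P → ℕ) (l : List (List P)) :
    ((l.filter f).map g).sum + ((l.filter fun s => !f s).map g).sum = (l.map g).sum := by
  induction l with
  | nil => rfl
  | cons a l ih => cases h : f a <;> simp [h] <;> omega

theorem sd_sjn (f : List P → Bool) (x : Sy) : sjn (sd f x) ≤ sjn x := by
  have h := sum_filter f jn x.2
  have h0 : jn [] = 0 := rfl
  simp only [sjn, sd]
  cases f x.1
  · simp only [cond_false]
    omega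
  · simp only [cond_true]
    omega

theorem sd_hch (i : Fin 3) (c : ℤ) (I : Finset (Fin 3)) (f : List P → Bool) (x : Sy) :
    hch i c I (sd f x) + hch i c I (sd (fun s => !f s) x) = hch i c I x := by
  have h := sum_filter f (ch i c) x.2
  cases h1 : f x.1
  · have e1 : sd f x = ([], x.2.filter f) := by simp [sd, h1]
    have e2 : sd (fun s => !f s) x = (x.1, x.2.filter fun s => !f s) := by simp [sd, h1]
    rw [e1, e2]
    simp only [hch, if_true]
    omega
  · have e1 : sd f x = (x.1, x.2.filter f) := by simp [sd, h1]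
    have e2 : sd (fun s => !f s) x = ([], x.2.filter fun s => !f s) := by simp [sd, h1]
    rw [e1, e2]
    simp only [hch, if_true]
    omega

theorem flat_le (i : Fin 3) (c : ℤ) (l : List (List P)) (h : l.flatten.Nodup) :
    l.flatten.length ≤ (l.map (ch i c)).sum := by
  induction l with
  | nil => simp
  | cons a l ih =>
    rw [List.flatten_cons] at h
    have h1 := ih (h.sublist (List.sublist_append_right _ _))
    have h2 := length_le_len (h.sublist (List.sublist_append_left _ _))
    simp only [List.flatten_cons, List.length_append, List.map_cons, List.sum_cons, ch]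
    omega

theorem le_hch (i : Fin 3) (c : ℤ) (I : Finset (Fin 3)) {y : Sy} (h : (allp y).Nodup) :
    (allp y).length ≤ hch i c I y + 1 := by
  have h1 := flat_le i c y.2 (h.sublist (List.sublist_append_right _ _))
  have h2 := length_le_len (h.sublist (List.sublist_append_left _ _))
  simp only [allp, hch, List.length_append]
  split_ifs with h3
  · simp only [h3, List.length_nil]
    omega
  · omega
  · omega

theorem cnt_mono {w w' : List P} (h : w'.Sublist w) (i : Fin 3) (c : ℤ) :
    cnt w' i c ≤ cnt w i c :=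
  Finset.card_le_card (Finset.filter_subset_filter _ fun _ hp =>
    List.mem_toFinset.2 (h.subset (List.mem_toFinset.1 hp)))

theorem half_mem {i : Fin 3} {c : ℤ} {σ : Prop} {I : Finset (Fin 3)} {k j M K : ℕ} {R : ℝ}
    {x : Sy} (f : List P → Bool) (hσ : ∀ s ∈ x.1 :: x.2, f s = true → ∀ p ∈ s, (p i ≤ c ↔ σ))
    (hg : Good (allp x)) (hne : ∀ s ∈ x.2, s ≠ []) (hk : x.2.length ≤ k) (hj : sjn x ≤ j)
    (hb : bx (allp x) ≤ M) (hM : hch i c I x ≤ M)
    (hK : cnt (allp x) i c + cnt (allp x) i (c + 1) ≤ K)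
    (hR : (hch i c I x : ℝ) + 1 ≤ (allp x).length + R) : sd f x ∈ Half i c σ I k j M K R := by
  have h1 := sd_hch i c I f x
  have h2 := (sd_perm f x).length_eq
  have h3 := le_hch i c I (hg.sub (sd_sub (fun s => !f s) x)).1
  rw [List.length_append] at h2
  refine ⟨hg.sub (sd_sub f x), fun p hp => ?_, fun s hs => hne s (List.mem_filter.1 hs).1,
    (List.length_filter_le _ _).trans hk, (sd_sjn f x).trans hj,
    (bx_mono fun p hp => (sd_sub f x).subset hp).trans hb, by omega,
    (add_le_add (cnt_mono (sd_sub f x) i c) (cnt_mono (sd_sub f x) i _)).trans hK, ?_⟩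
  · obtain ⟨s, hs, h4, h5⟩ := sd_mem hp
    exact hσ s hs h4 p h5
  · have h4 : hch i c I (sd f x) + (allp x).length ≤
        hch i c I x + 1 + (allp (sd f x)).length := by omega
    have h5 : (hch i c I (sd f x) : ℝ) + (allp x).length ≤
        hch i c I x + 1 + (allp (sd f x)).length := by exact_mod_cast h4
    linarith

/-- A sparse plane near the last site. -/
theorem plane (i : Fin 3) {w : List P} (hg : Good w) {r K : ℕ} (hr : 0 < r)
    (h : w.length ≤ r * K) : ∃ c : ℤ, lt w i ≤ c ∧ c ≤ lt w i + 2 * r ∧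
      cnt w i c + cnt w i (c + 1) ≤ K := by
  obtain ⟨k, hk, h1⟩ := exists_sparse w.toFinset (fun p => (p i - lt w i) / 2) r K hr
    (by rwa [hg.card]) 0
  refine ⟨lt w i + 2 * k, by omega, by omega, le_trans ?_ h1⟩
  rw [cnt, cnt, ← Finset.card_union_of_disjoint]
  · refine Finset.card_le_card fun p hp => ?_
    simp only [Finset.mem_union, Finset.mem_filter] at hp ⊢
    rcases hp with hp | hp <;> exact ⟨hp.1, by omega⟩
  · refine Finset.disjoint_left.2 fun p h2 h3 => ?_
    have h4 := (Finset.mem_filter.1 h2).2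
    have h5 := (Finset.mem_filter.1 h3).2
    omega

theorem ds_le (i : Fin 3) (c : ℤ) (p q : P) : ds i c p ≤ ds i c q + (q i - p i).natAbs := by
  unfold ds
  split_ifs <;> omega

/-- The lists of choices. -/
noncomputable def bl (k : ℕ) : Finset (List Bool) := (List.finite_length_le Bool k).toFinset

theorem split (hC : CutStmt) (θ : Par) {i : Fin 3} {I I' : Finset (Fin 3)} (hi : i ∈ I' → i ∈ I)
    {j M M' r K : ℕ} {R R' : ℝ} (hr : 0 < r) (hK : M + 1 ≤ r * K) (hM : M + 4 * r ≤ M')
    (hR : R + 4 * r + 1 ≤ R') {w : List P} (hw : w ∈ Sing I j M R) (hne : w ≠ []) :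
    ∃ c : ℤ, c.natAbs ≤ M' ∧
      ∃ y ∈ Half i c True I' (j + K) j M' K R' ×ˢ Half i c False I' (j + K) j M' K R',
        (∃ bs ∈ bl (j + K), w = dec bs y) ∧
        ep θ I w ≤ Real.exp (kap θ * (K + 1)) * (ew θ (allp y.1) * ew θ (allp y.2)) := by
  obtain ⟨hg, hj, hs, ht⟩ := hw
  have hl := length_le_len hg.1
  unfold sz at hs
  have htot : tot I w = len w + dI I (lt w) (hd w) := rfl
  obtain ⟨c, hc1, hc2, hc3⟩ := plane i hg hr (K := K) (by omega)
  obtain ⟨x, rfl, h1, h2, h3, h4⟩ := hC i c w hne hg.1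
  have hx1 : x.1 ≠ [] := (h1 x.1 (by simp)).1
  have hb := le_bx (lt_mem hne) i
  have hd1 : ds i c (lt (allp x)) ≤ 2 * r := by
    rw [ds, if_pos hc1]
    omega
  have hh : hch i c I' x ≤ tot I (allp x) + 4 * r := by
    have e : hd x.1 = hd (allp x) := (hd_append hx1 _).symm
    rw [hch, if_neg hx1, e]
    split_ifs with h5
    · have h6 := coord_le_dI (hi h5) (lt (allp x)) (hd (allp x))
      have h7 := ds_le i c (hd (allp x)) (lt (allp x))
      omega
    · omega
  have hh' : (hch i c I' x : ℝ) + 1 ≤ (allp x).length + R' := by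
    have : (hch i c I' x : ℝ) ≤ tot I (allp x) + 4 * r := by exact_mod_cast hh
    linarith
  let f : List P → Bool := fun s => decide (hd s i ≤ c)
  have hL : sd f x ∈ Half i c True I' (j + K) j M' K R' := by
    refine half_mem f (fun s hs h5 p hp => ?_) hg (fun s hs => (h1 s (by simp [hs])).1)
      (by omega) (by omega) (by omega) (by omega) hc3 hh'
    obtain ⟨h6, h7 | h7⟩ := h1 s hs
    · simpa using h7 p hp
    · have h8 := h7 _ (hd_mem h6)
      simp only [f, decide_eq_true_eq] at h5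
      omega
  have hR' : sd (fun s => !f s) x ∈ Half i c False I' (j + K) j M' K R' := by
    refine half_mem _ (fun s hs h5 p hp => ?_) hg (fun s hs => (h1 s (by simp [hs])).1)
      (by omega) (by omega) (by omega) (by omega) hc3 hh'
    obtain ⟨h6, h7 | h7⟩ := h1 s hs
    · have h8 := h7 _ (hd_mem h6)
      simp only [f, Bool.not_eq_eq_eq_not, Bool.not_true, decide_eq_false_iff_not] at h5
      omega
    · simpa using h7 p hp
  refine ⟨c, by omega, (sd f x, sd (fun s => !f s) x), ⟨hL, hR'⟩, ⟨x.2.map f, ?_, dec_sd f x⟩, ?_⟩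
  · simp only [bl, Set.Finite.mem_toFinset, Set.mem_ofPred_eq, List.length_map]
    omega
  · have a1 : ∀ p ∈ (allp (sd f x)).toFinset, p i ≤ c := fun p hp =>
      (hL.2.1 p (List.mem_toFinset.1 hp)).2 trivial
    have a2 : ∀ p ∈ (allp (sd (fun s => !f s) x)).toFinset, c < p i := fun p hp =>
      not_le.1 (hR'.2.1 p (List.mem_toFinset.1 hp)).1
    have e : (allp (sd f x)).toFinset ∪ (allp (sd (fun s => !f s) x)).toFinset =
        (allp x).toFinset := by
      rw [← List.toFinset_append]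
      exact List.toFinset_eq_of_perm _ _ (sd_perm f x)
    have h5 := phi_union θ ((allp x).toFinset.filter fun p => p i = c)
      (V := (allp (sd f x)).toFinset) (W := (allp (sd (fun s => !f s) x)).toFinset)
      (Finset.disjoint_left.2 fun p hp hp' => (a1 p hp).not_gt (a2 p hp'))
      fun p hp q hq hpq => by
        refine Finset.mem_filter.2 ⟨e ▸ Finset.mem_union_left _ hp, ?_⟩
        have b1 := a1 p hp
        have b2 := a2 q hq
        have b3 := coord_le_d1 p q i
        rw [show d1 p q = 1 from hpq] at b3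
        omega
    rw [e] at h5
    have h6 : (((allp x).toFinset.filter fun p => p i = c).card : ℝ) ≤ K := by
      have : cnt (allp x) i c ≤ K := by omega
      exact_mod_cast this
    have h7 : ((allp x).length : ℝ) ≤ tot I (allp x) + 1 := by
      have : (allp x).length ≤ tot I (allp x) + 1 := by omega
      exact_mod_cast this
    have hk := kap_nonneg θ
    rw [ep, ew, ew, ← Real.exp_add, ← Real.exp_add, Real.exp_le_exp, pot]
    have h8 := (abs_le.1 h5).2
    nlinarith [mul_le_mul_of_nonneg_left h6 hk, mul_le_mul_of_nonneg_left h7 hk]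

theorem bd_biUnion {A B : Type} (T : Finset B) (X : B → Set A) {f : A → ℝ} {G : ℝ}
    (h : ∀ b ∈ T, Bd (X b) f G) : Bd {x | ∃ b ∈ T, x ∈ X b} f (T.card * G) := by
  induction T using Finset.induction_on with
  | empty =>
    intro s hs
    have : s = ∅ := Finset.eq_empty_of_forall_notMem fun x hx => by simpa using hs hx
    simp [this]
  | insert b T hb ih =>
    refine ((h b (by simp)).union (ih fun b' hb' => h b' (by simp [hb']))).mono
      (fun x hx => by simpa using hx) (fun _ _ => le_rfl) (le_of_eq ?_)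
    rw [Finset.card_insert_of_notMem hb]
    push_cast
    ring

theorem step (hC : CutStmt) (θ : Par) {i : Fin 3} {I I' : Finset (Fin 3)} (hi : i ∈ I' → i ∈ I)
    {j M M' r K : ℕ} {R R' H : ℝ} (hr : 0 < r) (hK : M + 1 ≤ r * K) (hM : M + 4 * r ≤ M')
    (hR : R + 4 * r + 1 ≤ R')
    (hH : ∀ (c : ℤ) (σ : Prop), c.natAbs ≤ M' →
      Bd (Half i c σ I' (j + K) j M' K R') (fun x => ew θ (allp x)) H) :
    Bd (Sing I j M R) (ep θ I)
      (1 + (2 * M' + 1 : ℕ) * (Real.exp (kap θ * (K + 1)) * (bl (j + K)).card * (H * H))) := by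
  have h1 := bd_biUnion (f := ep θ I) (Finset.Icc (-(M' : ℤ)) M')
    (fun c => {w | ∃ y ∈ Half i c True I' (j + K) j M' K R' ×ˢ Half i c False I' (j + K) j M' K R',
        (∃ bs ∈ bl (j + K), w = dec bs y) ∧
        ep θ I w ≤ Real.exp (kap θ * (K + 1)) * (ew θ (allp y.1) * ew θ (allp y.2))})
    (G := Real.exp (kap θ * (K + 1)) * (bl (j + K)).card * (H * H)) fun c hc => by
      have hc' : c.natAbs ≤ M' := by
        rw [Finset.mem_Icc] at hc
        omega
      exact ((hH c True hc').prod (hH c False hc') (fun x => (ew_pos θ _).le)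
        fun x => (ew_pos θ _).le).transfer (fan_dec (bl (j + K)) dec) (Real.exp_pos _).le
        (fun y => (mul_pos (ew_pos θ _) (ew_pos θ _)).le) fun w hw => hw
  have h2 : (Finset.Icc (-(M' : ℤ)) M').card = 2 * M' + 1 := by
    rw [Int.card_Icc]
    omega
  rw [h2] at h1
  refine ((bd_singleton [] (ep_pos θ I []).le).union h1).mono (fun w hw => ?_) (fun _ _ => le_rfl)
    (le_of_eq (by simp [ep]))
  by_cases hne : w = []
  · exact Or.inl hne
  · obtain ⟨c, hc, h⟩ := split hC θ hi hr hK hM hR hw hne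
    exact Or.inr ⟨c, by rw [Finset.mem_Icc]; omega, h⟩

theorem sys_mono {I : Finset (Fin 3)} {k j M M' : ℕ} {R R' : ℝ} (hM : M ≤ M') (hR : R ≤ R') :
    Sys I k j M R ⊆ Sys I k j M' R' := fun _ h =>
  ⟨h.1, h.2.1, h.2.2.1, h.2.2.2.1.trans hM, h.2.2.2.2.trans (by linarith)⟩

theorem final {A B T E₁ E₂ G D E N : ℝ} {k : ℕ} (hN : 1 ≤ N) (hA : A ≤ N) (hB : 0 ≤ B)
    (hT0 : 0 ≤ T) (hT : T ≤ 3 * N ^ 6) (h1 : 0 ≤ E₁) (hE : (E₂ * G) * (E₂ * G) ≤ D * E)
    (hE1 : 1 ≤ E) :
    1 + A * (E₁ * B * (T ^ k * (E₂ * G) * (T ^ k * (E₂ * G)))) ≤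
      (1 + E₁ * B * (3 ^ k * 3 ^ k * D)) * N ^ (12 * k + 1) * E := by
  have h2 : T ^ k ≤ 3 ^ k * N ^ (6 * k) := by
    rw [pow_mul, ← mul_pow]
    exact pow_le_pow_left₀ hT0 hT k
  have h3 : 1 ≤ N ^ (12 * k + 1) * E := one_le_mul_of_one_le_of_one_le (one_le_pow₀ hN) hE1
  have h4 : A * (E₁ * B * (T ^ k * (E₂ * G) * (T ^ k * (E₂ * G)))) ≤
      N * (E₁ * B * ((3 ^ k * N ^ (6 * k)) * (3 ^ k * N ^ (6 * k)) * (D * E))) := by
    have h5 : 0 ≤ (E₂ * G) * (E₂ * G) := mul_self_nonneg _
    rw [mul_mul_mul_comm (T ^ k)]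
    refine mul_le_mul hA ?_ (by positivity) (by positivity)
    gcongr
  have e : N ^ (12 * k + 1) = N * (N ^ (6 * k) * N ^ (6 * k)) := by ring
  rw [e] at h3 ⊢
  nlinarith

end DBL

open DBL in
theorem dbl_of : CutStmt → HalfStmt → DblStmt := by
  intro hC hH θ i I I' C hi hI hC0 hQ
  have hk := kap_nonneg θ
  refine ⟨26 * (C + kap θ), by positivity, fun j a ρ δ hρ hδ => ?_⟩
  obtain ⟨K, hK⟩ := exists_nat_ge (((a : ℝ) + 1) / ρ)
  obtain ⟨b, hb⟩ := exists_nat_ge ρ
  have h5 : ∀ᶠ n : ℕ in atTop, 5 ≤ ρ * n :=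
    (tendsto_natCast_atTop_atTop.const_mul_atTop hρ).eventually_ge_atTop 5
  filter_upwards [hQ (j + K) (2 * j + (j + K) + 1) (5 * (a + 4 * b) + 3) (13 * ρ) (δ / 4)
    (by positivity) (by positivity), h5, eventually_ge_atTop 1,
    ev_poly (1 + Real.exp (kap θ * (K + 1)) * (bl (j + K)).card *
      (3 ^ (j + K + 1) * 3 ^ (j + K + 1) * Real.exp (kap θ * (2 * K)))) (2 * (a + 4 * b) + 1)
      (12 * (j + K + 1) + 1) (half_pos hδ)] with n hn h5 h1 hp
  have hr1 : ρ * n ≤ ⌈ρ * n⌉₊ := Nat.le_ceil _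
  have hr2 : (⌈ρ * n⌉₊ : ℝ) < ρ * n + 1 := Nat.ceil_lt_add_one (by positivity)
  have hr3 : ⌈ρ * n⌉₊ ≤ b * n := Nat.ceil_le.2 (by push_cast; gcongr)
  have hr4 : a * n + 1 ≤ ⌈ρ * n⌉₊ * K := by
    have h2 : (1 : ℝ) ≤ n := by exact_mod_cast h1
    rw [div_le_iff₀ hρ] at hK
    have h3 : (a : ℝ) * n + 1 ≤ ⌈ρ * n⌉₊ * K := by
      calc (a : ℝ) * n + 1 ≤ (a + 1) * n := by linarith
        _ ≤ K * ρ * n := by gcongr
        _ = ρ * n * K := by ring
        _ ≤ _ := by gcongr
    exact_mod_cast h3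
  have hG : 1 ≤ Real.exp ((C * (13 * ρ) + δ / 4) * n) := Real.one_le_exp (by positivity)
  have hS : Bd (Sys I' (j + K) (2 * j + (j + K) + 1) (5 * ((a + 4 * b) * n) + 3)
      (2 * (6 * (ρ * n)) + 2)) (es θ I') (Real.exp ((C * (13 * ρ) + δ / 4) * n)) :=
    hn.mono (sys_mono (by nlinarith) (by linarith)) (fun _ _ => le_rfl) le_rfl
  have h6 := step hC θ hI (j := j) (M := a * n) (M' := (a + 4 * b) * n) (R := ρ * n)
    (R' := 6 * (ρ * n)) (Nat.ceil_pos.2 (by linarith)) hr4 (by nlinarith) (by linarith)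
    fun c σ hc => hH θ i c σ I' (j + K) j _ K _ _ hi hc (by positivity) hG hS
  refine h6.mono subset_rfl (fun _ _ => le_rfl) ?_
  have hN : 2 * ((a + 4 * b) * n) + 1 ≤ (2 * (a + 4 * b) + 1) * n + (2 * (a + 4 * b) + 1) := by
    nlinarith
  have hN' : ((2 * ((a + 4 * b) * n) + 1 : ℕ) : ℝ) ≤
      ((2 * (a + 4 * b) + 1) * n + (2 * (a + 4 * b) + 1) : ℕ) := by exact_mod_cast hN
  refine (final (E := Real.exp ((26 * (C + kap θ) * ρ + δ / 2) * n))
    (D := Real.exp (kap θ * (2 * K))) ?_ hN' (by positivity) (by positivity) ?_ (by positivity) ?_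
    (Real.one_le_exp (by positivity))).trans ?_
  · exact_mod_cast le_trans (by omega) hN
  · have h7 := Nat.pow_le_pow_left hN 6
    have h8 : 1 ≤ ((2 * (a + 4 * b) + 1) * n + (2 * (a + 4 * b) + 1)) ^ 6 :=
      Nat.one_le_pow _ _ (by omega)
    have h9 : 2 * (2 * ((a + 4 * b) * n) + 1) ^ 6 + 1 ≤
        3 * ((2 * (a + 4 * b) + 1) * n + (2 * (a + 4 * b) + 1)) ^ 6 := by omega
    exact_mod_cast h9
  · simp only [← Real.exp_add, Real.exp_le_exp]
    nlinarith [mul_le_mul_of_nonneg_left h5 hk]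
  · refine (mul_le_mul_of_nonneg_right hp (Real.exp_pos _).le).trans (le_of_eq ?_)
    rw [← Real.exp_add]
    congr 1
    ring

end Pool.Agent.MP_7b45f6_mp.H32
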